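import Mathlib

set_option autoImplicit false

namespace Pool.Agent.Results.MP_071e18_gt.Fails
open Set Real MeasureTheory EuclideanGeometry Filter Topology

abbrev E := EuclideanSpace ℝ (Fin 2)

def H (e a b c : ℝ) : Set E := {p | e ≤ p 0 ∧ e ≤ p 1 ∧ a * p 0 + b * p 1 ≤ c}

theorem sub_int (e a b c : ℝ) :
    {p : E | e < p 0 ∧ e < p 1 ∧ a * p 0 + b * p 1 < c} ⊆ interior (H e a b c) :=
  interior_maximal (fun _ h => ⟨h.1.le, h.2.1.le, h.2.2.le⟩) (by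
    refine IsOpen.and ?_ (IsOpen.and ?_ ?_) <;> exact isOpen_lt (by fun_prop) (by fun_prop))

theorem fr {e a b c : ℝ} (ha : 0 < a) (hb : 0 < b) (p : E) : p ∈ frontier (H e a b c) ↔
    p ∈ H e a b c ∧ (p 0 = e ∨ p 1 = e ∨ a * p 0 + b * p 1 = c) := by
  have cl : IsClosed (H e a b c) := by
    refine IsClosed.and ?_ (IsClosed.and ?_ ?_) <;> exact isClosed_le (by fun_prop) (by fun_prop)
  rw [cl.frontier_eq]
  refine and_congr_right fun h => ⟨fun n => ?_, fun k n => ?_⟩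
  · by_contra q
    push Not at q
    exact n (sub_int e a b c ⟨h.1.lt_of_ne' q.1, h.2.1.lt_of_ne' q.2.1, h.2.2.lt_of_ne q.2.2⟩)
  have m : ∀ d : ℝ, ∃ t : ℝ, 0 < t ∧ p + t • !₂[d, d] ∈ H e a b c := fun d => by
    have : Tendsto (fun t : ℝ => p + t • (!₂[d, d] : E)) (𝓝 0) (𝓝 p) := by
      simpa using (by fun_prop : Continuous fun t : ℝ => p + t • (!₂[d, d] : E)).tendsto 0
    exact (eventually_mem_nhdsWithin.and ((this.eventually (mem_interior_iff_mem_nhds.1 n)).filter_mono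
      (nhdsWithin_le_nhds (s := Ioi 0)))).exists
  obtain ⟨t, t0, h1, h2, -⟩ := m (-1)
  obtain ⟨s, s0, -, -, h3⟩ := m 1
  simp at h1 h2 h3
  rcases k with k | k | k <;> nlinarith [mul_pos ha s0, mul_pos hb s0]

theorem seg (x y : E) {l : ℝ} (l0 : 0 ≤ l) (h : (x 0 - y 0) ^ 2 + (x 1 - y 1) ^ 2 = l ^ 2) :
    μH[1] (segment ℝ x y) = ENNReal.ofReal l := by
  rw [hausdorffMeasure_segment, edist_dist, EuclideanSpace.dist_eq, Fin.sum_univ_two]
  simp only [Real.dist_eq, sq_abs, h, sqrt_sq l0]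

theorem mseg {x y p : E} (t : ℝ) (h0 : 0 ≤ t) (h1 : t ≤ 1) (e0 : p 0 = x 0 + t * (y 0 - x 0))
    (e1 : p 1 = x 1 + t * (y 1 - x 1)) : p ∈ segment ℝ x y :=
  ⟨1 - t, t, by linarith, h0, by ring, by ext i; fin_cases i <;> simp <;> linarith⟩

theorem ang {x y : E} {l m : ℝ} (l0 : 0 < l) (m0 : 0 < m) (hx : x 0 ^ 2 + x 1 ^ 2 = l ^ 2)
    (hy : y 0 ^ 2 + y 1 ^ 2 = m ^ 2) (h : x 0 * y 0 + x 1 * y 1 ≤ 4 / 5 * (l * m)) :
    arccos (4 / 5) ≤ InnerProductGeometry.angle x y := by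
  have n : ∀ (z : E) (l : ℝ), 0 < l → z 0 ^ 2 + z 1 ^ 2 = l ^ 2 → ‖z‖ = l := fun z l l0 hz => by
    rw [EuclideanSpace.norm_eq, Fin.sum_univ_two]; simp [hz, l0.le]
  rw [InnerProductGeometry.angle, n x l l0 hx, n y m m0 hy]
  refine arccos_le_arccos ((div_le_iff₀ (by positivity)).2 ?_)
  simp [PiLp.inner_apply, Fin.sum_univ_two]
  linarith

theorem result : ∃ (a b c : EuclideanSpace ℝ (Fin 2))
    (g : EuclideanSpace ℝ (Fin 2) → EuclideanSpace ℝ (Fin 2)) (K K' : Set (EuclideanSpace ℝ (Fin 2))),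
    Isometry g ∧ K = convexHull ℝ {a, b, c} ∧ K' = g '' K ∧ (interior K ∩ interior K').Nonempty ∧ K ≠ K' ∧
      1 / sin (min (∠ b a c) (min (∠ a b c) (∠ a c b)) / 2) <
        (μH[1] (frontier K ∩ K')).toReal / (μH[1] (frontier K' ∩ K)).toReal := by
  refine ⟨!₂[0, 0], !₂[4, 0], !₂[0, 3], fun p => !₂[p 1 - (1 / 100), p 0 - (1 / 100)], H 0 3 4 12,
    H (-(1 / 100)) 4 3 (1193 / 100), Isometry.of_dist_eq fun p q => ?_, subset_antisymm (fun p h => ?_)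
      (convexHull_min ?_ ?_), ?_, ⟨!₂[1, 1], sub_int _ _ _ _ ?_, sub_int _ _ _ _ ?_⟩, fun h => ?_, ?_⟩
  · simp [EuclideanSpace.dist_eq, Fin.sum_univ_two, Real.dist_eq, add_comm]
  · obtain ⟨h1, h2, h3⟩ := h
    refine mem_convexHull_of_exists_fintype ![1 - p 0 / 4 - p 1 / 3, p 0 / 4, p 1 / 3]
      ![!₂[0, 0], !₂[4, 0], !₂[0, 3]] (fun i => ?_) (by simp [Fin.sum_univ_three]; ring) (fun i => ?_) ?_
    · fin_cases i <;> simp <;> linarith
    · fin_cases i <;> simp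
    · ext i; fin_cases i <;> simp [Fin.sum_univ_three]
  · rintro p (rfl | rfl | rfl) <;> simp [H] <;> norm_num
  · rintro p ⟨h1, h2, h3⟩ q ⟨k1, k2, k3⟩ s t s0 t0 e
    refine ⟨?_, ?_, ?_⟩ <;> simp <;> nlinarith
  · ext p
    refine ⟨fun ⟨h1, h2, h3⟩ => ⟨!₂[p 1 + (1 / 100), p 0 + (1 / 100)], ⟨?_, ?_, ?_⟩, ?_⟩, ?_⟩
    · simp; linarith
    · simp; linarith
    · simp; linarith
    · ext i; fin_cases i <;> simp
    · rintro ⟨q, ⟨h1, h2, h3⟩, rfl⟩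
      refine ⟨?_, ?_, ?_⟩ <;> simp <;> linarith
  · simp; norm_num
  · simp; norm_num
  · have : (!₂[4, 0] : E) ∈ H 0 3 4 12 := by simp [H]; norm_num
    rw [h] at this
    have := this.2.2
    simp at this; norm_num at this
  obtain ⟨S, hS⟩ : ∃ S, S = frontier (H 0 3 4 12) ∩ H (-(1 / 100)) 4 3 (1193 / 100) := ⟨_, rfl⟩
  obtain ⟨T, hT⟩ : ∃ T, T = frontier (H (-(1 / 100)) 4 3 (1193 / 100)) ∩ H 0 3 4 12 := ⟨_, rfl⟩
  rw [← hS, ← hT]
  have mS := fun p => (hS ▸ mem_inter_iff p _ _ : p ∈ S ↔ _)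
  have mT := fun p => (hT ▸ mem_inter_iff p _ _ : p ∈ T ↔ _)
  simp only [fr (by norm_num : (0 : ℝ) < 3) (by norm_num : (0 : ℝ) < 4),
    fr (by norm_num : (0 : ℝ) < 4) (by norm_num : (0 : ℝ) < 3)] at mS mT
  simp only [H, mem_ofPred_eq] at mS mT
  have t1 : μH[1] T ≤ ENNReal.ofReal (11 / 5) := by
    rw [← seg !₂[(1193 / 400), 0] !₂[(133 / 80), (44 / 25)] (by norm_num) (by simp; norm_num)]
    refine measure_mono fun p h => ?_
    obtain ⟨⟨-, k⟩, h1, h2, h3⟩ := (mT p).1 h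
    have k : 4 * p 0 + 3 * p 1 = (1193 / 100) := by rcases k with k | k | k <;> linarith
    exact mseg (p 1 / (44 / 25)) (by positivity) (by linarith) (by simp; linarith) (by simp)
  have t2 : ENNReal.ofReal 1 ≤ μH[1] T := by
    rw [← seg !₂[(1193 / 400), 0] !₂[(953 / 400), (4 / 5)] (by norm_num) (by simp; norm_num)]
    refine measure_mono ?_
    rintro p ⟨s, t, s0, t0, e, rfl⟩
    refine (mT _).2 ⟨⟨⟨?_, ?_, ?_⟩, Or.inr (Or.inr ?_)⟩, ?_, ?_, ?_⟩ <;> simp <;> linarith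
  have s1 : μH[1] S ≠ ⊤ := by
    refine ne_top_of_le_ne_top ?_ ((measure_mono (t := segment ℝ !₂[0, 0] !₂[0, 3] ∪
      (segment ℝ !₂[0, 0] !₂[4, 0] ∪ segment ℝ !₂[4, 0] !₂[0, 3])) fun p h => ?_).trans
        ((measure_union_le _ _).trans (add_le_add le_rfl (measure_union_le _ _))))
    · simp [edist_ne_top]
    obtain ⟨⟨⟨h1, h2, h3⟩, k | k | k⟩, -⟩ := (mS p).1 h
    · exact Or.inl (mseg (p 1 / 3) (by positivity) (by linarith) (by simp [k]) (by simp))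
    · exact Or.inr (Or.inl (mseg (p 0 / 4) (by positivity) (by linarith) (by simp) (by simp [k])))
    · exact Or.inr (Or.inr (mseg (p 1 / 3) (by positivity) (by linarith) (by simp; linarith) (by simp)))
  have s2 : ENNReal.ofReal 3 + (ENNReal.ofReal (297 / 100) + ENNReal.ofReal 2) ≤ μH[1] S := by
    rw [← measure_inter_add_sdiff S (t := {p : E | p 0 = 0}) (isClosed_eq (by fun_prop)
      (by fun_prop)).measurableSet, ← measure_inter_add_sdiff (S \ _) (t := {p : E | p 1 = 0})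
        (isClosed_eq (by fun_prop) (by fun_prop)).measurableSet,
      ← seg !₂[0, 0] !₂[0, 3] (by norm_num) (by simp),
      ← seg !₂[(1 / 100), 0] !₂[(149 / 50), 0] (by norm_num) (by simp; norm_num),
      ← seg !₂[(1 / 25), (297 / 100)] !₂[(41 / 25), (177 / 100)] (by norm_num) (by simp; norm_num)]
    refine add_le_add (measure_mono ?_) (add_le_add (measure_mono ?_) (measure_mono ?_))
    · rintro p ⟨s, t, s0, t0, e, rfl⟩
      refine ⟨(mS _).2 ⟨⟨⟨?_, ?_, ?_⟩, Or.inl ?_⟩, ?_, ?_, ?_⟩, ?_⟩ <;> simp <;> linarith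
    · rintro p ⟨s, t, s0, t0, e, rfl⟩
      refine ⟨⟨(mS _).2 ⟨⟨⟨?_, ?_, ?_⟩, Or.inr (Or.inl ?_)⟩, ?_, ?_, ?_⟩, ne_of_gt ?_⟩, ?_⟩ <;> simp <;>
        linarith
    · rintro p ⟨s, t, s0, t0, e, rfl⟩
      refine ⟨⟨(mS _).2 ⟨⟨⟨?_, ?_, ?_⟩, Or.inr (Or.inr ?_)⟩, ?_, ?_, ?_⟩, ne_of_gt ?_⟩, ne_of_gt ?_⟩ <;>
        simp <;> linarith
  rw [← ENNReal.ofReal_add (by norm_num) (by norm_num), ← ENNReal.ofReal_add (by norm_num)
    (by norm_num), ENNReal.ofReal_le_iff_le_toReal s1] at s2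
  have t3 := ENNReal.toReal_le_of_le_ofReal (by norm_num) t1
  rw [ENNReal.ofReal_le_iff_le_toReal (ne_top_of_le_ne_top ENNReal.ofReal_ne_top t1)] at t2
  obtain ⟨θ, hθ⟩ : ∃ θ, θ = min (∠ (!₂[4, 0] : E) !₂[0, 0] !₂[0, 3]) (min (∠ (!₂[0, 0] : E) !₂[4, 0] !₂[0, 3])
    (∠ (!₂[0, 0] : E) !₂[0, 3] !₂[4, 0])) := ⟨_, rfl⟩
  have a1 : arccos (4 / 5) ≤ θ := hθ ▸ le_min
    (ang (l := 4) (m := 3) (by norm_num) (by norm_num) (by simp) (by simp) (by simp)) (le_min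
      (ang (l := 4) (m := 5) (by norm_num) (by norm_num) (by simp) (by simp; norm_num) (by simp; norm_num))
      (ang (l := 3) (m := 5) (by norm_num) (by norm_num) (by simp) (by simp; norm_num) (by simp; norm_num)))
  have a2 : θ ≤ π := hθ ▸ (min_le_left _ _).trans (angle_le_pi _ _ _)
  have a0 := arccos_nonneg (4 / 5)
  have a3 := cos_le_cos_of_nonneg_of_le_pi a0 a2 a1
  rw [cos_arccos (by norm_num) (by norm_num), show θ = 2 * (θ / 2) by ring, cos_two_mul, cos_sq'] at a3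
  have a4 := sin_nonneg_of_nonneg_of_le_pi (x := θ / 2) (by linarith) (by linarith)
  have a5 : (31 / 100) ≤ sin (θ / 2) := by nlinarith
  rw [← hθ, div_lt_div_iff₀ (by linarith) (by linarith)]
  nlinarith

end Pool.Agent.Results.MP_071e18_gt.Fails
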